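import Mathlib
import Pool.Agent.MAC.Main

set_option autoImplicit false

/-!
# Edge partitions: the asymptotic version of Mader's conjecture

For every `ε > 0` there is a constant `C` such that every `K`-connected graph on `n` vertices has a
partition of its edges into a set spanning an `s`-connected and a set spanning a `t`-connected graph,
whenever `s, t ≥ 1`, `s, t ≤ (1 - ε) K` and `s + t + C √K (log n)² ≤ K`.
-/

namespace Pool.Agent.Results.MP_4a0681_co.AsymptoticMader

theorem result :
    ∀ ε : ℝ, 0 < ε → ∃ C : ℝ, ∀ s t K : ℕ, 1 ≤ s → 1 ≤ t →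
      (s : ℝ) ≤ (1 - ε) * K → (t : ℝ) ≤ (1 - ε) * K →
      ∀ (V : Type) [Fintype V] (G : SimpleGraph V),
        (s : ℝ) + t + C * Real.sqrt K * (Real.log (Fintype.card V)) ^ 2 ≤ K →
        (K < Fintype.card V ∧
          ∀ S : Finset V, S.card < K → (G.induce ((S : Set V)ᶜ)).Connected) →
        ∃ A : Set (Sym2 V), A ⊆ G.edgeSet ∧
          (s < (SimpleGraph.fromEdgeSet A).support.ncard ∧
            ∀ S : Finset V, S.card < s →
              ((SimpleGraph.fromEdgeSet A).induce
                ((SimpleGraph.fromEdgeSet A).support \ (S : Set V))).Connected) ∧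
          (t < (SimpleGraph.fromEdgeSet (G.edgeSet \ A)).support.ncard ∧
            ∀ S : Finset V, S.card < t →
              ((SimpleGraph.fromEdgeSet (G.edgeSet \ A)).induce
                ((SimpleGraph.fromEdgeSet (G.edgeSet \ A)).support \ (S : Set V))).Connected) :=
  Pool.Agent.MAC.main

end Pool.Agent.Results.MP_4a0681_co.AsymptoticMader
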