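import Mathlib
import Pool.Agent.EdgePart.Main

set_option autoImplicit false

/-!
# Edge partitions into an `s`-connected and a `t`-connected graph

Let `s, t ≥ 2` and `4 K ≥ 4 s + 13 t - 5`.  Every `K`-connected graph, and more generally every
`s`-connected graph all of whose vertices have degree at least `K`, has a partition of its edges
into a set spanning an `s`-connected graph and a set spanning a `t`-connected graph.
-/

namespace Pool.Agent.Results.MP_4a0681_co.MinimumDegree

open Finset

/-- in a `K`-connected graph every vertex has degree at least `K` -/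
lemma degree_ge {V : Type} [Fintype V] (G : SimpleGraph V) (K : ℕ)
    (hG : K < Fintype.card V ∧
      ∀ S : Finset V, S.card < K → (G.induce ((S : Set V)ᶜ)).Connected) (v : V) :
    K ≤ (G.neighborSet v).ncard := by
  classical
  by_contra hlt
  push Not at hlt
  set S : Finset V := (G.neighborSet v).toFinset with hS
  have hScard : S.card < K := by
    rw [hS, ← Set.ncard_eq_toFinset_card']
    exact hlt
  have hSmem : ∀ w, w ∈ S ↔ G.Adj v w := by
    intro w
    rw [hS, Set.mem_toFinset, SimpleGraph.mem_neighborSet]
  have hvS : v ∉ S := by rw [hSmem]; exact G.loopless.irrefl v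
  obtain ⟨w, hw⟩ : ∃ w, w ∉ insert v S := by
    by_contra hall
    push Not at hall
    have h1 : (univ : Finset V) ⊆ insert v S := fun w _ => hall w
    have h2 := card_le_card h1
    have h3 := card_insert_le v S
    rw [card_univ] at h2
    have := hG.1
    omega
  rw [mem_insert] at hw
  push Not at hw
  have hKon : Pool.Agent.EdgePart.KOn K G univ := by
    refine ⟨by rw [card_univ]; exact hG.1, fun X hX => ?_⟩
    have := hG.2 X hX
    rw [coe_univ, ← Set.compl_eq_univ_sdiff]
    exact this
  have := hKon.spread S {v} hScard (w := v) (v := w) (mem_singleton_self v) (mem_univ _) hvS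
    (mem_univ _) hw.2 (by
      intro a ha b _ hb hab
      rw [mem_singleton] at ha
      subst ha
      exact absurd ((hSmem b).mpr hab) hb)
  exact hw.1 (mem_singleton.mp this)

/-- Let `s, t ≥ 2` and let `4 K ≥ 4 s + 13 t - 5`.  If `G` is a finite simple graph which is
`K`-connected, or which is `s`-connected and has minimum degree at least `K`, then there is an edge
set `A` such that the graph spanned by `A` is `s`-connected and the graph spanned by the other
edges is `t`-connected. -/
theorem result :
    ∀ s t K : ℕ, 2 ≤ s → 2 ≤ t → 4 * s + 13 * t ≤ 4 * K + 5 →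
      ∀ (V : Type) [Fintype V] (G : SimpleGraph V),
        ((K < Fintype.card V ∧
            ∀ S : Finset V, S.card < K → (G.induce ((S : Set V)ᶜ)).Connected) ∨
          ((s < Fintype.card V ∧
            ∀ S : Finset V, S.card < s → (G.induce ((S : Set V)ᶜ)).Connected) ∧
            ∀ v, K ≤ (G.neighborSet v).ncard)) →
        ∃ A : Set (Sym2 V), A ⊆ G.edgeSet ∧
          (s < (SimpleGraph.fromEdgeSet A).support.ncard ∧
            ∀ S : Finset V, S.card < s →
              ((SimpleGraph.fromEdgeSet A).induce
                ((SimpleGraph.fromEdgeSet A).support \ (S : Set V))).Connected) ∧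
          (t < (SimpleGraph.fromEdgeSet (G.edgeSet \ A)).support.ncard ∧
            ∀ S : Finset V, S.card < t →
              ((SimpleGraph.fromEdgeSet (G.edgeSet \ A)).induce
                ((SimpleGraph.fromEdgeSet (G.edgeSet \ A)).support \ (S : Set V))).Connected) := by
  intro s t K hs ht hK V _ G h
  rcases h with h | ⟨h1, h2⟩
  · refine Pool.Agent.EdgePart.partition s t K hs ht hK G ?_ (degree_ge G K h)
    exact ⟨by have := h.1; omega, fun S hS => h.2 S (by omega)⟩
  · exact Pool.Agent.EdgePart.partition s t K hs ht hK G h1 h2

end Pool.Agent.Results.MP_4a0681_co.MinimumDegree
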