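import Mathlib

set_option autoImplicit false

/-!
# Mader's question with the exact value `s + t` for graphs with a small dense piece

`G` is `(s+t)`-connected.  If `G` contains the complete `k`-partite graph with parts of size `r`,
`(k-1) r = s`, and has at least `s + t + r` vertices, the edges of this piece and the other edges
are the two parts of a partition as in the question.  Consequences: cliques, neighbourhoods covered
by two cliques, line graphs, and dense graphs.
-/

namespace Pool.Agent.Results.MP_4a0681_co.SmallPieces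

open Finset

variable {V : Type}

/-- `G` is `k`-connected -/
def IsKConn [Fintype V] (k : ℕ) (G : SimpleGraph V) : Prop :=
  k < Fintype.card V ∧ ∀ S : Finset V, S.card < k → (G.induce ((S : Set V)ᶜ)).Connected

/-- the graph spanned by the edge set `A` is `k`-connected -/
def SpansKConn (k : ℕ) (A : Set (Sym2 V)) : Prop :=
  k < (SimpleGraph.fromEdgeSet A).support.ncard ∧
    ∀ S : Finset V, S.card < k →
      ((SimpleGraph.fromEdgeSet A).induce
        ((SimpleGraph.fromEdgeSet A).support \ (S : Set V))).Connected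

/-- the edge set of `G` has a partition into a set spanning an `s`-connected graph and a set
spanning a `t`-connected graph -/
def Splits (s t : ℕ) (G : SimpleGraph V) : Prop :=
  ∃ A : Set (Sym2 V), A ⊆ G.edgeSet ∧ SpansKConn s A ∧ SpansKConn t (G.edgeSet \ A)

theorem Splits.symm {s t : ℕ} {G : SimpleGraph V} (h : Splits s t G) : Splits t s G := by
  obtain ⟨A, hA, h1, h2⟩ := h
  refine ⟨G.edgeSet \ A, Set.sdiff_subset, h2, ?_⟩
  rw [Set.sdiff_sdiff_cancel_left hA]
  exact h1

/-- cut criterion -/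
theorem connected_of_cut {W : Type} (H : SimpleGraph W) [Nonempty W]
    (h : ∀ X : Set W, X.Nonempty → Xᶜ.Nonempty → ∃ x ∈ X, ∃ y ∈ Xᶜ, H.Adj x y) :
    H.Connected := by
  have hp : H.Preconnected := by
    intro u v
    by_contra hv
    obtain ⟨x, hx, y, hy, hxy⟩ := h {w | H.Reachable u w} ⟨u, SimpleGraph.Reachable.refl u⟩ ⟨v, hv⟩
    exact hy (SimpleGraph.Reachable.trans hx hxy.reachable)
  exact ⟨hp⟩

theorem cut_of_conn [Fintype V] {K : ℕ} {G : SimpleGraph V} (hG : IsKConn K G) {S : Finset V}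
    (hS : S.card < K) (X : Set V) (hx : ∃ x, x ∉ S ∧ x ∈ X) (hy : ∃ y, y ∉ S ∧ y ∉ X) :
    ∃ x y, x ∉ S ∧ x ∈ X ∧ y ∉ S ∧ y ∉ X ∧ G.Adj x y := by
  obtain ⟨x, hxS, hxX⟩ := hx
  obtain ⟨y, hyS, hyX⟩ := hy
  have hc := hG.2 S hS
  obtain ⟨p⟩ := hc.preconnected (⟨x, by simpa using hxS⟩ : ((S : Set V)ᶜ : Set V))
    (⟨y, by simpa using hyS⟩ : ((S : Set V)ᶜ : Set V))
  obtain ⟨d, -, hd1, hd2⟩ := p.exists_boundary_dart {w | (w : V) ∈ X} hxX hyX
  have hadj : G.Adj (d.fst : V) (d.snd : V) := d.adj
  refine ⟨d.fst, d.snd, ?_, hd1, ?_, hd2, hadj⟩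
  · exact d.fst.2
  · exact d.snd.2

/-- the other part -/
theorem spans_rest [Fintype V] {t : ℕ} (ht : 1 ≤ t) {G H : SimpleGraph V}
    (hn : t < Fintype.card V)
    (h : ∀ S : Finset V, S.card < t → ∀ X : Set V, (∃ x, x ∉ S ∧ x ∈ X) → (∃ y, y ∉ S ∧ y ∉ X) →
      ∃ x y, x ∉ S ∧ x ∈ X ∧ y ∉ S ∧ y ∉ X ∧ G.Adj x y ∧ ¬ H.Adj x y) :
    SpansKConn t (G.edgeSet \ H.edgeSet) := by
  classical
  set B := SimpleGraph.fromEdgeSet (G.edgeSet \ H.edgeSet) with hB
  have hadj : ∀ x y, G.Adj x y → ¬ H.Adj x y → B.Adj x y := by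
    intro x y h1 h2
    rw [hB, SimpleGraph.fromEdgeSet_adj]
    exact ⟨⟨h1, h2⟩, h1.ne⟩
  have hsupp : B.support = Set.univ := by
    rw [Set.eq_univ_iff_forall]
    intro v
    obtain ⟨w, hw⟩ : ∃ w, w ≠ v := by
      have h1 : 1 < Fintype.card V := lt_of_le_of_lt ht hn
      exact Fintype.exists_ne_of_one_lt_card h1 v
    obtain ⟨x, y, -, hx, -, hy, h1, h2⟩ := h ∅ (by rw [card_empty]; exact ht) {v} ⟨v, by simp, rfl⟩
      ⟨w, by simp, hw⟩
    rw [Set.mem_singleton_iff] at hx
    subst hx
    exact ⟨y, hadj _ _ h1 h2⟩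
  refine ⟨?_, ?_⟩
  · rw [← hB, hsupp, Set.ncard_univ, Nat.card_eq_fintype_card]
    exact hn
  · intro S hS
    rw [← hB]
    have hmem : ∀ v : V, v ∈ B.support \ (S : Set V) ↔ v ∉ S := by
      intro v
      rw [hsupp]
      simp
    have : Nonempty (↥(B.support \ (S : Set V))) := by
      obtain ⟨v, hv⟩ : ∃ v, v ∉ S := by
        by_contra hall
        push Not at hall
        have : Fintype.card V ≤ S.card := by
          rw [← card_univ]
          exact card_le_card fun v _ => hall v
        omega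
      exact ⟨⟨v, (hmem v).2 hv⟩⟩
    apply connected_of_cut
    rintro X ⟨x, hx⟩ ⟨y, hy⟩
    obtain ⟨x', y', h1, h2, h3, h4, h5, h6⟩ := h S hS {v | ∃ hv, (⟨v, hv⟩ : ↥(B.support \ (S : Set V))) ∈ X}
      ⟨x, (hmem _).1 x.2, x.2, hx⟩ ⟨y, (hmem _).1 y.2, fun ⟨_, h⟩ => hy h⟩
    obtain ⟨hv, h2⟩ := h2
    refine ⟨⟨x', hv⟩, h2, ⟨y', (hmem _).2 h3⟩, fun hc => h4 ⟨_, hc⟩, ?_⟩
    exact hadj _ _ h5 h6

/-- the complete multipartite graph with the parts `P i` -/
def multi {k : ℕ} (P : Fin k → Finset V) : SimpleGraph V where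
  Adj x y := x ≠ y ∧ ∃ i j, i ≠ j ∧ x ∈ P i ∧ y ∈ P j
  symm := ⟨fun _ _ ⟨h, i, j, hij, hx, hy⟩ => ⟨h.symm, j, i, hij.symm, hy, hx⟩⟩
  loopless := ⟨fun _ h => h.1 rfl⟩

theorem multi_spans {s r k : ℕ} (hr : 1 ≤ r) (hs : 1 ≤ s) (hk : k * r = s + r)
    {P : Fin k → Finset V} (hc : ∀ i, (P i).card = r)
    (hd : ∀ i j, i ≠ j → Disjoint (P i) (P j)) : SpansKConn s (multi P).edgeSet := by
  classical
  unfold SpansKConn
  rw [SimpleGraph.fromEdgeSet_edgeSet]
  have hk2 : 2 ≤ k := by
    by_contra hlt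
    have : k ≤ 1 := by omega
    have h1 : k * r ≤ 1 * r := Nat.mul_le_mul_right r this
    omega
  set U : Finset V := univ.biUnion P with hU
  have hcard : U.card = s + r := by
    rw [hU, card_biUnion (fun i _ j _ hij => hd i j hij), Finset.sum_congr rfl fun i _ => hc i]
    simp [hk]
  have hadj : ∀ i j x y, i ≠ j → x ∈ P i → y ∈ P j → (multi P).Adj x y := by
    intro i j x y hij hx hy
    refine ⟨?_, i, j, hij, hx, hy⟩
    rintro rfl
    exact (Finset.disjoint_left.1 (hd i j hij)) hx hy
  have hex : ∀ i : Fin k, ∃ j, i ≠ j := by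
    intro i
    have : Nontrivial (Fin k) := Fin.nontrivial_iff_two_le.2 hk2
    obtain ⟨j, hj⟩ := exists_ne i
    exact ⟨j, hj.symm⟩
  have hsupp : (multi P).support = (U : Set V) := by
    ext v
    constructor
    · rintro ⟨w, -, i, j, -, hv, -⟩
      rw [hU]
      simp only [coe_biUnion, Set.mem_iUnion]
      exact ⟨i, by simp, hv⟩
    · intro hv
      rw [hU] at hv
      simp only [coe_biUnion, Set.mem_iUnion] at hv
      obtain ⟨i, -, hv⟩ := hv
      obtain ⟨j, hj⟩ := hex i
      obtain ⟨w, hw⟩ : (P j).Nonempty := card_pos.1 (by rw [hc]; exact hr)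
      exact ⟨w, hadj i j v w hj hv hw⟩
  rw [hsupp]
  refine ⟨?_, ?_⟩
  · rw [Set.ncard_coe_finset, hcard]
    omega
  · intro S hS
    have hbig : ∀ i : Fin k, ∃ j, i ≠ j ∧ ∃ z ∈ P j, z ∉ S := by
      intro i
      by_contra hno
      push Not at hno
      have h1 : U \ P i ⊆ S := by
        intro z hz
        rw [mem_sdiff, hU, mem_biUnion] at hz
        obtain ⟨⟨j, -, hj⟩, hi⟩ := hz
        refine hno j ?_ z hj
        rintro rfl
        exact hi hj
      have h2 := card_le_card h1
      have h3 : P i ⊆ U := by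
        intro z hz
        rw [hU, mem_biUnion]
        exact ⟨i, mem_univ _, hz⟩
      rw [card_sdiff_of_subset h3, hcard, hc] at h2
      omega
    have hmem : ∀ v : V, v ∈ ((U : Set V) \ (S : Set V)) ↔ (∃ i, v ∈ P i) ∧ v ∉ S := by
      intro v
      rw [Set.mem_sdiff, mem_coe, mem_coe, hU, mem_biUnion]
      simp
    have : Nonempty (↥((U : Set V) \ (S : Set V))) := by
      obtain ⟨j, -, z, hz, hzS⟩ := hbig ⟨0, by omega⟩
      exact ⟨⟨z, (hmem z).2 ⟨⟨j, hz⟩, hzS⟩⟩⟩
    apply connected_of_cut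
    rintro X ⟨x, hx⟩ ⟨y, hy⟩
    obtain ⟨⟨i, hxi⟩, hxS⟩ := (hmem _).1 x.2
    obtain ⟨⟨j, hyj⟩, hyS⟩ := (hmem _).1 y.2
    by_cases hij : i = j
    · subst hij
      obtain ⟨l, hl, z, hz, hzS⟩ := hbig i
      have hzm := (hmem z).2 ⟨⟨l, hz⟩, hzS⟩
      by_cases hzX : (⟨z, hzm⟩ : ↥((U : Set V) \ (S : Set V))) ∈ X
      · exact ⟨_, hzX, y, hy, hadj l i z y hl.symm hz hyj⟩
      · exact ⟨x, hx, _, hzX, hadj i l x z hl hxi hz⟩
    · exact ⟨x, hx, y, hy, hadj i j _ _ hij hxi hyj⟩

/-- the main step -/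
theorem splits_of_multi [Fintype V] {s t r k : ℕ} (hs : 1 ≤ s) (ht : 1 ≤ t) (hr : 1 ≤ r)
    (hk : k * r = s + r) {G : SimpleGraph V} (hG : IsKConn (s + t) G)
    (hn : s + t + r ≤ Fintype.card V) {P : Fin k → Finset V} (hc : ∀ i, (P i).card = r)
    (hP : ∀ i j, i ≠ j → ∀ x ∈ P i, ∀ y ∈ P j, G.Adj x y) : Splits s t G := by
  classical
  have hd : ∀ i j, i ≠ j → Disjoint (P i) (P j) := by
    intro i j hij
    rw [Finset.disjoint_left]
    intro x hx hx'
    exact (hP i j hij x hx x hx').ne rfl
  refine ⟨(multi P).edgeSet, ?_, multi_spans hr hs hk hc hd, ?_⟩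
  · rw [SimpleGraph.edgeSet_subset_edgeSet]
    rintro x y ⟨-, i, j, hij, hx, hy⟩
    exact hP i j hij x hx y hy
  · apply spans_rest ht (by omega)
    intro S hS X hx hy
    by_contra hno
    push Not at hno
    set U : Finset V := univ.biUnion P with hU
    have hcard : U.card = s + r := by
      rw [hU, card_biUnion (fun i _ j _ hij => hd i j hij), Finset.sum_congr rfl fun i _ => hc i]
      simp [hk]
    have hPU : ∀ i, P i ⊆ U := by
      intro i z hz
      rw [hU, mem_biUnion]
      exact ⟨i, mem_univ _, hz⟩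
    have key : ∀ i, (∀ x, x ∉ S → x ∈ X → x ∈ U \ P i) ∨ (∀ y, y ∉ S → y ∉ X → y ∈ U \ P i) := by
      intro i
      by_contra hneg
      push Not at hneg
      obtain ⟨⟨x, hxS, hxX, hxU⟩, ⟨y, hyS, hyX, hyU⟩⟩ := hneg
      have hcS : (S ∪ U \ P i).card < s + t := by
        have h1 := card_union_le S (U \ P i)
        rw [card_sdiff_of_subset (hPU i), hcard, hc] at h1
        omega
      obtain ⟨a, b, ha, haX, hb, hbX, hab⟩ := cut_of_conn hG hcS X
        ⟨x, by rw [mem_union]; tauto, hxX⟩ ⟨y, by rw [mem_union]; tauto, hyX⟩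
      rw [mem_union, not_or] at ha hb
      have h2 := hno a b ha.1 haX hb.1 hbX hab
      obtain ⟨-, l, m, hlm, hal, hbm⟩ := h2
      have hai : l = i := by
        by_contra hne
        apply ha.2
        rw [mem_sdiff]
        exact ⟨hPU l hal, fun h => (Finset.disjoint_left.1 (hd l i hne)) hal h⟩
      have hbi : m = i := by
        by_contra hne
        apply hb.2
        rw [mem_sdiff]
        exact ⟨hPU m hbm, fun h => (Finset.disjoint_left.1 (hd m i hne)) hbm h⟩
      exact hlm (hai.trans hbi.symm)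
    -- every vertex outside `S` lies in `U`
    have hall : ∀ z, z ∉ S → z ∈ U := by
      obtain ⟨x, hxS, hxX⟩ := hx
      obtain ⟨y, hyS, hyX⟩ := hy
      have hk0 : 0 < k := by
        rcases Nat.eq_zero_or_pos k with h | h
        · subst h; omega
        · exact h
      rcases key ⟨0, hk0⟩ with h1 | h1
      · have hxU := (mem_sdiff.1 (h1 x hxS hxX)).1
        rw [hU, mem_biUnion] at hxU
        obtain ⟨i, -, hxi⟩ := hxU
        rcases key i with h2 | h2
        · exact absurd hxi (mem_sdiff.1 (h2 x hxS hxX)).2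
        · intro z hz
          by_cases hzX : z ∈ X
          · exact (mem_sdiff.1 (h1 z hz hzX)).1
          · exact (mem_sdiff.1 (h2 z hz hzX)).1
      · have hyU := (mem_sdiff.1 (h1 y hyS hyX)).1
        rw [hU, mem_biUnion] at hyU
        obtain ⟨i, -, hyi⟩ := hyU
        rcases key i with h2 | h2
        · intro z hz
          by_cases hzX : z ∈ X
          · exact (mem_sdiff.1 (h2 z hz hzX)).1
          · exact (mem_sdiff.1 (h1 z hz hzX)).1
        · exact absurd hyi (mem_sdiff.1 (h2 y hyS hyX)).2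
    have hfin : (univ : Finset V) ⊆ S ∪ U := by
      intro z _
      rw [mem_union]
      by_cases hz : z ∈ S
      · exact Or.inl hz
      · exact Or.inr (hall z hz)
    have h3 := (card_le_card hfin).trans (card_union_le S U)
    rw [card_univ, hcard] at h3
    omega

/-- a clique with `s + 1` vertices -/
theorem splits_of_clique [Fintype V] {s t : ℕ} (hs : 1 ≤ s) (ht : 1 ≤ t) {G : SimpleGraph V}
    (hG : IsKConn (s + t) G) {C : Finset V} (hC : G.IsClique (C : Set V)) (hc : C.card = s + 1) :
    Splits s t G := by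
  have hcard := hG.1
  let e : Fin (s + 1) ≃ C := (C.equivFinOfCardEq hc).symm
  refine splits_of_multi (r := 1) (k := s + 1) hs ht le_rfl (by ring) hG (by omega)
    (P := fun i => {(e i : V)}) (fun i => card_singleton _) ?_
  intro i j hij x hx y hy
  rw [mem_singleton] at hx hy
  subst hx
  subst hy
  refine hC (e i).2 (e j).2 ?_
  intro h
  exact hij (e.injective (Subtype.ext h))

theorem degree_ge [Fintype V] {G : SimpleGraph V} {K : ℕ} (hG : IsKConn K G) (v : V) :
    K ≤ (G.neighborSet v).ncard := by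
  classical
  by_contra hlt
  push Not at hlt
  set S : Finset V := (G.neighborSet v).toFinset with hS
  have hScard : S.card < K := by
    rw [hS, ← Set.ncard_eq_toFinset_card']
    exact hlt
  have hSmem : ∀ w, w ∈ S ↔ G.Adj v w := by
    intro w
    rw [hS, Set.mem_toFinset, SimpleGraph.mem_neighborSet]
  have hvS : v ∉ S := by rw [hSmem]; exact G.loopless.irrefl v
  obtain ⟨w, hw⟩ : ∃ w, w ∉ insert v S := by
    by_contra hall
    push Not at hall
    have h1 : (univ : Finset V) ⊆ insert v S := fun w _ => hall w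
    have h2 := card_le_card h1
    have h3 := card_insert_le v S
    rw [card_univ] at h2
    have := hG.1
    omega
  rw [mem_insert] at hw
  push Not at hw
  obtain ⟨x, y, -, hx, hy, -, hxy⟩ := cut_of_conn hG hScard {v} ⟨v, hvS, rfl⟩ ⟨w, hw.2, hw.1⟩
  rw [Set.mem_singleton_iff] at hx
  subst hx
  exact hy ((hSmem y).2 hxy)

/-- a vertex whose neighbourhood is covered by few cliques -/
theorem splits_of_cover [Fintype V] {s t m : ℕ} (hs : 1 ≤ s) (ht : 1 ≤ t) {G : SimpleGraph V}
    (hG : IsKConn (s + t) G) {v : V} {C : Fin m → Set V} (hC : ∀ i, G.IsClique (C i))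
    (hv : G.neighborSet v ⊆ ⋃ i, C i) (hm : m * (s - 1) < s + t) : Splits s t G := by
  classical
  have hdeg := degree_ge hG v
  obtain ⟨i, hi⟩ : ∃ i, s ≤ (G.neighborSet v ∩ C i).ncard := by
    by_contra hno
    push Not at hno
    have h1 : G.neighborSet v ⊆ ⋃ i, (G.neighborSet v ∩ C i) := by
      rw [← Set.inter_iUnion]
      exact Set.subset_inter subset_rfl hv
    have h2 : (G.neighborSet v).ncard ≤ ∑ i, (G.neighborSet v ∩ C i).ncard := by
      have h4 : (G.neighborSet v).toFinset ⊆
          univ.biUnion fun i => (G.neighborSet v ∩ C i).toFinset := by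
        intro w hw
        rw [Set.mem_toFinset] at hw
        obtain ⟨i, hi⟩ := Set.mem_iUnion.1 (h1 hw)
        rw [mem_biUnion]
        exact ⟨i, mem_univ _, by rw [Set.mem_toFinset]; exact hi⟩
      have h5 := (card_le_card h4).trans card_biUnion_le
      simp only [← Set.ncard_eq_toFinset_card'] at h5
      exact h5
    have h3 : ∑ i, (G.neighborSet v ∩ C i).ncard ≤ m * (s - 1) := by
      refine (sum_le_sum (g := fun _ => s - 1) fun i _ => ?_).trans ?_
      · have := hno i
        omega
      · rw [sum_const, card_univ, Fintype.card_fin, smul_eq_mul]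
    omega
  obtain ⟨T, hT1, hT2⟩ := Set.exists_subset_card_eq hi
  lift T to Finset V using Set.toFinite T
  rw [Set.ncard_coe_finset] at hT2
  have hvT : v ∉ T := fun h => G.loopless.irrefl v (hT1 h).1
  refine splits_of_clique hs ht hG (C := insert v T) ?_ (by rw [card_insert_of_notMem hvT, hT2])
  rw [coe_insert, SimpleGraph.isClique_insert]
  exact ⟨(hC i).subset (hT1.trans Set.inter_subset_right), fun b hb _ => (hT1 hb).1⟩

/-- counting -/
theorem exists_bip [Fintype V] {s K : ℕ} {G : SimpleGraph V} (hG : IsKConn K G) (hsK : s ≤ K)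
    (h : (s - 1) * (Fintype.card V) ^ (s - 1) < (K + 1 - s) ^ s) (hs : 1 ≤ s) :
    ∃ P Q : Finset V, P.card = s ∧ Q.card = s ∧ ∀ x ∈ P, ∀ y ∈ Q, G.Adj x y := by
  classical
  by_contra hno
  push Not at hno
  set n := Fintype.card V with hn
  -- common neighbours
  have h1 : ∀ P ∈ powersetCard s (univ : Finset V),
      (univ.filter fun v => ∀ x ∈ P, G.Adj x v).card ≤ s - 1 := by
    intro P hP
    rw [mem_powersetCard] at hP
    by_contra hlt
    push Not at hlt
    have hle : s ≤ (univ.filter fun v => ∀ x ∈ P, G.Adj x v).card := by omega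
    obtain ⟨Q, hQ1, hQ2⟩ := exists_subset_card_eq hle
    obtain ⟨x, hx, y, hy, hxy⟩ := hno P Q hP.2 hQ2
    exact hxy ((mem_filter.1 (hQ1 hy)).2 x hx)
  have h2 : ∑ P ∈ powersetCard s (univ : Finset V), (univ.filter fun v => ∀ x ∈ P, G.Adj x v).card
      = ∑ v : V, ((powersetCard s (univ : Finset V)).filter fun P => ∀ x ∈ P, G.Adj x v).card := by
    simp only [card_filter]
    exact sum_comm
  have h3 : ∀ v : V, K.choose s
      ≤ ((powersetCard s (univ : Finset V)).filter fun P => ∀ x ∈ P, G.Adj x v).card := by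
    intro v
    have h4 : powersetCard s (G.neighborFinset v)
        ⊆ (powersetCard s (univ : Finset V)).filter fun P => ∀ x ∈ P, G.Adj x v := by
      intro P hP
      rw [mem_powersetCard] at hP
      rw [mem_filter, mem_powersetCard]
      refine ⟨⟨subset_univ _, hP.2⟩, fun x hx => ?_⟩
      have := hP.1 hx
      rw [SimpleGraph.mem_neighborFinset] at this
      exact this.symm
    have h5 := card_le_card h4
    rw [card_powersetCard] at h5
    refine le_trans (Nat.choose_le_choose s ?_) h5
    have h6 := degree_ge hG v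
    rw [Set.ncard_eq_toFinset_card'] at h6
    exact h6
  have h7 : n * K.choose s ≤ (s - 1) * n.choose s := by
    calc n * K.choose s = ∑ _v : V, K.choose s := by
          rw [sum_const, card_univ, smul_eq_mul]
      _ ≤ ∑ v : V, ((powersetCard s (univ : Finset V)).filter fun P => ∀ x ∈ P, G.Adj x v).card :=
          sum_le_sum fun v _ => h3 v
      _ = ∑ P ∈ powersetCard s (univ : Finset V),
            (univ.filter fun v => ∀ x ∈ P, G.Adj x v).card := h2.symm
      _ ≤ ∑ _P ∈ powersetCard s (univ : Finset V), (s - 1) := sum_le_sum h1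
      _ = (s - 1) * n.choose s := by
          rw [sum_const, card_powersetCard, card_univ, smul_eq_mul, mul_comm]
  have hn0 : 0 < n := by have := hG.1; omega
  have h8 : n * (K + 1 - s) ^ s ≤ (s - 1) * n ^ s := by
    calc n * (K + 1 - s) ^ s ≤ n * K.descFactorial s :=
          Nat.mul_le_mul_left _ (Nat.pow_sub_le_descFactorial K s)
      _ = s.factorial * (n * K.choose s) := by
          rw [Nat.descFactorial_eq_factorial_mul_choose]; ring
      _ ≤ s.factorial * ((s - 1) * n.choose s) := Nat.mul_le_mul_left _ h7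
      _ = (s - 1) * n.descFactorial s := by
          rw [Nat.descFactorial_eq_factorial_mul_choose]; ring
      _ ≤ (s - 1) * n ^ s := Nat.mul_le_mul_left _ (Nat.descFactorial_le_pow n s)
  have h9 : (s - 1) * n ^ s = n * ((s - 1) * n ^ (s - 1)) := by
    obtain ⟨u, rfl⟩ : ∃ u, s = u + 1 := ⟨s - 1, by omega⟩
    simp only [Nat.add_sub_cancel]
    ring
  rw [h9] at h8
  exact absurd (Nat.le_of_mul_le_mul_left h8 hn0) (not_le.2 h)

/-- greedy cliques -/
theorem exists_clique [Fintype V] {s K : ℕ} {G : SimpleGraph V} (hG : IsKConn K G)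
    (h : s * (Fintype.card V - K) < Fintype.card V) :
    ∃ C : Finset V, G.IsClique (C : Set V) ∧ C.card = s + 1 := by
  classical
  have hcard := hG.1
  have key : ∀ j, j ≤ s + 1 → ∃ C : Finset V, G.IsClique (C : Set V) ∧ C.card = j := by
    intro j
    induction j with
    | zero => intro _; exact ⟨∅, by simp, rfl⟩
    | succ j ih =>
      intro hj
      obtain ⟨C, hC, hc⟩ := ih (by omega)
      -- forbidden vertices
      have h1 : (C.biUnion fun c => univ.filter fun v => ¬ G.Adj c v).card
          ≤ s * (Fintype.card V - K) := by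
        refine card_biUnion_le.trans ?_
        refine (sum_le_sum (g := fun _ => Fintype.card V - K) fun c _ => ?_).trans ?_
        · have h2 := degree_ge hG c
          rw [Set.ncard_eq_toFinset_card'] at h2
          have h3 : (univ.filter fun v => ¬ G.Adj c v).card + (G.neighborSet c).toFinset.card
              = Fintype.card V := by
            rw [← card_univ (α := V), ← card_filter_add_card_filter_not (s := (univ : Finset V))
              (fun v => G.Adj c v), add_comm]
            congr 2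
            ext v
            simp
          omega
        · rw [sum_const, hc, smul_eq_mul]
          exact Nat.mul_le_mul_right _ (by omega)
      obtain ⟨v, hv⟩ : ∃ v, v ∉ C.biUnion fun c => univ.filter fun v => ¬ G.Adj c v := by
        by_contra hall
        push Not at hall
        have h2 : (univ : Finset V) ⊆ C.biUnion fun c => univ.filter fun v => ¬ G.Adj c v :=
          fun v _ => hall v
        have h3 := card_le_card h2
        rw [card_univ] at h3
        omega
      have hv' : ∀ c ∈ C, G.Adj c v := by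
        intro c hc'
        by_contra hne
        exact hv (mem_biUnion.2 ⟨c, hc', mem_filter.2 ⟨mem_univ _, hne⟩⟩)
      have hvC : v ∉ C := fun hh => G.loopless.irrefl v (hv' v hh)
      refine ⟨insert v C, ?_, by rw [card_insert_of_notMem hvC, hc]⟩
      rw [coe_insert, SimpleGraph.isClique_insert]
      exact ⟨hC, fun b hb _ => (hv' b hb).symm⟩
  exact key (s + 1) le_rfl

/-- dense graphs -/
theorem splits_dense [Fintype V] {s t : ℕ} (hs : 1 ≤ s) (hst : s ^ 2 ≤ t) {G : SimpleGraph V}
    (hG : IsKConn (s + t) G) (h : (s - 1) * (Fintype.card V) ^ (s - 1) < (t + 1) ^ s) :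
    Splits s t G := by
  classical
  have hcard := hG.1
  have hsq : s ≤ s ^ 2 := by nlinarith
  by_cases hn : 2 * s + t ≤ Fintype.card V
  · obtain ⟨P, Q, hP, hQ, hPQ⟩ := exists_bip hG (by omega)
      (by rw [show s + t + 1 - s = t + 1 by omega]; exact h) hs
    refine splits_of_multi (r := s) (k := 2) hs (by omega) hs (by ring) hG (by omega)
      (P := fun i => if i = 0 then P else Q) ?_ ?_
    · intro i
      by_cases hi : i = 0
      · simp [hi, hP]
      · simp [hi, hQ]
    · intro i j hij x hx y hy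
      by_cases hi : i = 0
      · have hj : j ≠ 0 := fun h => hij (hi.trans h.symm)
        rw [if_pos hi] at hx
        rw [if_neg hj] at hy
        exact hPQ x hx y hy
      · have hj : j = 0 := by omega
        rw [if_neg hi] at hx
        rw [if_pos hj] at hy
        exact (hPQ y hy x hx).symm
  · obtain ⟨C, hC, hc⟩ := exists_clique (s := s) hG (by
      have h1 : Fintype.card V - (s + t) ≤ s - 1 := by omega
      have h2 : s * (Fintype.card V - (s + t)) ≤ s * (s - 1) := Nat.mul_le_mul_left _ h1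
      have h3 : s * (s - 1) ≤ s ^ 2 := by
        rw [sq]
        exact Nat.mul_le_mul_left _ (by omega)
      omega)
    exact splits_of_clique hs (by omega) hG hC hc

/-- The question has a positive answer, with the exact value `s + t`, if one of the following
holds: (a) `G` contains a complete `k`-partite graph with parts of size `r`, `(k-1) r = s`, and has
at least `s + t + r` vertices; (b) the neighbourhood of some vertex is covered by `m` cliques,
`m (s-1) < s + t`; (c) `s ^ 2 ≤ t` and `(s-1) n ^ (s-1) < (t+1) ^ s` for the number `n` of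
vertices. -/
theorem result :
    ∀ s t : ℕ, 1 ≤ s → 1 ≤ t →
      ∀ (V : Type) [Fintype V] (G : SimpleGraph V), IsKConn (s + t) G →
        ((∃ r k : ℕ, 1 ≤ r ∧ k * r = s + r ∧ s + t + r ≤ Fintype.card V ∧
            ∃ P : Fin k → Finset V, (∀ i, (P i).card = r) ∧
              ∀ i j, i ≠ j → ∀ x ∈ P i, ∀ y ∈ P j, G.Adj x y) ∨
          (∃ (v : V) (m : ℕ) (C : Fin m → Set V), (∀ i, G.IsClique (C i)) ∧
            G.neighborSet v ⊆ ⋃ i, C i ∧ m * (s - 1) < s + t) ∨
          (s ^ 2 ≤ t ∧ (s - 1) * (Fintype.card V) ^ (s - 1) < (t + 1) ^ s)) →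
        Splits s t G ∧ Splits t s G := by
  intro s t hs ht V _ G hG h
  have h1 : Splits s t G := by
    rcases h with ⟨r, k, hr, hk, hn, P, hc, hP⟩ | ⟨v, m, C, hC, hv, hm⟩ | ⟨hst, h⟩
    · exact splits_of_multi hs ht hr hk hG hn hc hP
    · exact splits_of_cover hs ht hG hC hv hm
    · exact splits_dense hs hst hG h
  exact ⟨h1, h1.symm⟩

/-- the case of line graphs of graphs (`m = 2`) -/
theorem lineGraph_splits {W : Type} (H : SimpleGraph W) [Fintype H.edgeSet] {s t : ℕ} (hs : 1 ≤ s)
    (ht : 1 ≤ t) (hG : IsKConn (s + t) H.lineGraph) : Splits s t H.lineGraph := by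
  have hcard := hG.1
  obtain ⟨e⟩ : Nonempty H.edgeSet := Fintype.card_pos_iff.1 (by omega)
  obtain ⟨⟨a, b⟩, he⟩ := e
  have hC : ∀ i : Fin 2, H.lineGraph.IsClique
      ((fun i : Fin 2 => if i = 0 then {f : H.edgeSet | a ∈ (f : Sym2 W)}
        else {f : H.edgeSet | b ∈ (f : Sym2 W)}) i) := by
    intro i f hf g hg hfg
    by_cases hi : i = 0
    · simp only [hi, if_true] at hf hg
      exact SimpleGraph.lineGraph_adj_iff_exists.2 ⟨hfg, a, hf, hg⟩
    · simp only [hi, if_false] at hf hg
      exact SimpleGraph.lineGraph_adj_iff_exists.2 ⟨hfg, b, hf, hg⟩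
  have hv : H.lineGraph.neighborSet ⟨s(a, b), he⟩ ⊆
      ⋃ i : Fin 2, (fun i : Fin 2 => if i = 0 then {f : H.edgeSet | a ∈ (f : Sym2 W)}
        else {f : H.edgeSet | b ∈ (f : Sym2 W)}) i := by
    intro f hf
    obtain ⟨-, w, hw1, hw2⟩ := SimpleGraph.lineGraph_adj_iff_exists.1 hf
    rw [Set.mem_iUnion]
    rcases Sym2.mem_iff.1 hw1 with rfl | rfl
    · exact ⟨0, by simpa using hw2⟩
    · exact ⟨1, by simpa using hw2⟩
  by_cases hst : s ≤ t + 1
  · exact (result s t hs ht _ H.lineGraph hG (Or.inr (Or.inl ⟨_, 2, _, hC, hv, by omega⟩))).1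
  · have hG' : IsKConn (t + s) H.lineGraph := by rw [add_comm]; exact hG
    exact (result t s ht hs _ H.lineGraph hG' (Or.inr (Or.inl ⟨_, 2, _, hC, hv, by omega⟩))).2

end Pool.Agent.Results.MP_4a0681_co.SmallPieces
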